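import Pool.Agent.H33.RSeq

set_option autoImplicit false

namespace Pool.Agent.Results.MP_d3366a_al.Pos

open Pool.Agent.H33.SDM Function

theorem result (n : ℕ) (hn : 4 ≤ n) :
    ∃ g : ZMod (2 ^ n - 1) → Gp (2 ^ (n - 1)) (2 ^ (n - 2) - 1),
      Injective g ∧ Set.range g = {1}ᶜ ∧ Injective fun i => (g i)⁻¹ * g (i + 1) := by
  obtain ⟨m, rfl⟩ := Nat.exists_eq_add_of_le' hn
  have := Nat.two_pow_pos m
  rw [show 2 ^ (m + 4) = 16 * 2 ^ m by ring, show 2 ^ (m + 4 - 1) = 8 * 2 ^ m by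
    rw [show m + 4 - 1 = m + 3 from rfl]; ring, show 2 ^ (m + 4 - 2) = 4 * 2 ^ m by
    rw [show m + 4 - 2 = m + 2 from rfl]; ring]
  exact rseq (.inr rfl) (by omega) this

end Pool.Agent.Results.MP_d3366a_al.Pos
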